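import Pool.Agent.K3h16.MI.Stm

/-!
# Brick MASTER of helper16 (MP_34b615_gt): the master identity
-/

set_option autoImplicit false

open MeasureTheory Set Filter Topology
open scoped ContDiff

namespace Pool.Agent.K3h85.MI

open Pool.Agent.K3h16.MI

variable {m n : ℕ}

theorem ae_mem {M : Set (E n)} {v : Measure (E n)} (h : v Mᶜ = 0) : ∀ᵐ x ∂v, x ∈ M := by
  rw [ae_iff]
  exact h

/-- the kernel -/
noncomputable def kk (α : ℝ) (e : E n → Fin m → E n) (s : ℝ) (x y : E n) : ℝ :=
  kdet α (e x) (e y) (x - y) * ‖x - y‖ ^ s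

theorem kdet_symm (α : ℝ) (v w : Fin m → E n) (r : E n) : kdet α v w r = kdet α w v (-r) := by
  unfold kdet
  rw [← Matrix.det_transpose]
  congr 1
  ext i j
  simp only [Matrix.transpose_apply, Matrix.of_apply, inner_neg_left, inner_neg_right, norm_neg]
  rw [real_inner_comm (w i) (v j), real_inner_comm r (v j), real_inner_comm (w i) r]
  ring

theorem kk_symm (α : ℝ) (e : E n → Fin m → E n) (s : ℝ) (x y : E n) :
    kk α e s x y = kk α e s y x := by
  unfold kk
  rw [kdet_symm, neg_sub, norm_sub_rev]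

theorem integrable_of_cont {M : Set (E n)} {v : Measure (E n)} [IsFiniteMeasure v]
    (hM : IsCompact M) (h0 : v Mᶜ = 0) {F : E n × E n → ℂ} (hF : ContinuousOn F (M ×ˢ M)) :
    Integrable F (v.prod v) := by
  have h1 : v.restrict M = v := Measure.restrict_eq_self_of_ae_mem (ae_mem h0)
  have h2 : (v.prod v).restrict (M ×ˢ M) = v.prod v := by
    rw [← Measure.prod_restrict, h1]
  rw [← h2]
  exact hF.integrableOn_compact (hM.prod hM)

theorem J_exact (hE : S_EXACT) {M : Set (E n)} {e : E n → Fin m → E n} {v : Measure (E n)}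
    (hM : IsOCS M e v) {s : ℝ} (hs : 4 < s) (a : E n → ℂ) :
    J (-2) e v (fun x _ => a x) s = ((1 + 2 * m / s : ℝ) : ℂ) * J 0 e v (fun x _ => a x) s := by
  unfold J
  rw [← integral_const_mul]
  congr 1
  funext x
  rw [integral_const_mul, integral_const_mul, integral_complex_ofReal, integral_complex_ofReal,
    hE m n M e v hM s hs x (e x), Complex.ofReal_mul]
  ring

theorem J_prod (hC : S_CONT) {M : Set (E n)} {e : E n → Fin m → E n} {v : Measure (E n)}
    (hM : IsOCS M e v) [IsFiniteMeasure v] {s : ℝ} (hs : 0 < s) (α : ℝ) (c : E n → E n → ℂ)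
    (hc : ContinuousOn (fun p : E n × E n => c p.1 p.2) (M ×ˢ M)) :
    Integrable (fun z : E n × E n => c z.1 z.2 * (kk α e s z.1 z.2 : ℂ)) (v.prod v) ∧
    J α e v c s = ∫ z, c z.1 z.2 * (kk α e s z.1 z.2 : ℂ) ∂(v.prod v) := by
  have h1 : ContinuousOn (fun z : E n × E n => c z.1 z.2 * (kk α e s z.1 z.2 : ℂ)) (M ×ˢ M) :=
    hc.mul (Complex.continuous_ofReal.comp_continuousOn (hC m n M e v hM α s hs))
  have h2 := integrable_of_cont hM.compact hM.vol_compl h1
  refine ⟨h2, ?_⟩
  rw [integral_prod _ h2]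
  rfl

theorem J_congr {M : Set (E n)} {e : E n → Fin m → E n} {v : Measure (E n)}
    (hM : IsOCS M e v) (s α : ℝ) (c : E n → E n → ℂ) (F : E n → E n → ℂ)
    (h : ∀ x ∈ M, ∀ y ∈ M, F x y = c x y * (kk α e s x y : ℂ)) :
    ∫ x, ∫ y, F x y ∂v ∂v = J α e v c s := by
  unfold J
  refine integral_congr_ae ?_
  filter_upwards [ae_mem hM.vol_compl] with x hx
  refine integral_congr_ae ?_
  filter_upwards [ae_mem hM.vol_compl] with y hy
  exact h x hx y hy

theorem t_MASTER (hE : S_EXACT) (hT2 : S_TINT2) (hTMU : S_TMU) (hC : S_CONT) (hFin : S_FIN) :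
    S_MASTER := by
  intro m n M e v e' v' T ρ U hM hM' hMU hT hor φ hφ hexp s hs
  have hs0 : 0 < s := by linarith
  have : IsFiniteMeasure v := hFin m n M e v hM
  have : IsFiniteMeasure v' := hFin m n _ e' v' hM'
  set σ : ℂ := (s : ℂ) + 2 * m with hσ
  have hσr : σ = ((s + 2 * m : ℝ) : ℂ) := by
    rw [hσ]
    push_cast
    ring
  have hsm : 0 < s + 2 * m := by positivity
  let Lg : E n → ℝ := fun x => Real.log (ρ x)
  let Sg : E n → E n → ℂ := fun x y => (((Lg x + Lg y) / 2 : ℝ) : ℂ)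
  have hLc : ContinuousOn Lg M := by
    have h1 : ContinuousOn ρ M := hT.smoothρ.continuousOn.mono hMU
    exact h1.log fun x hx => (hT.pos x (hMU hx)).ne'
  have hL1 : ContinuousOn (fun p : E n × E n => Lg p.1) (M ×ˢ M) :=
    hLc.comp continuousOn_fst fun p hp => hp.1
  have hL2 : ContinuousOn (fun p : E n × E n => Lg p.2) (M ×ˢ M) :=
    hLc.comp continuousOn_snd fun p hp => hp.2
  have hSc : ContinuousOn (fun p : E n × E n => Sg p.1 p.2) (M ×ˢ M) :=
    Complex.continuous_ofReal.comp_continuousOn ((hL1.add hL2).div_const 2)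
  have hφc : ContinuousOn (fun p : E n × E n => φ (σ * Sg p.1 p.2)) (M ×ˢ M) :=
    hφ.continuous.comp_continuousOn (continuousOn_const.mul hSc)
  -- the transformation
  have hstep2 : J (-2) e' v' (fun _ _ => 1) s =
      J (-2) e v (fun x y => Complex.exp (σ * Sg x y)) s := by
    have h1 := hT2 m n M e v e' v' T ρ U hM hM' hMU hT
      (fun x y => (1 : ℂ) * (kk (-2) e' s x y : ℂ))
      (continuousOn_const.mul
        (Complex.continuous_ofReal.comp_continuousOn (hC m n _ e' v' hM' (-2) s hs0)))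
    have h2 : J (-2) e' v' (fun _ _ => 1) s =
      ∫ x, ∫ y, (1 : ℂ) * (kk (-2) e' s x y : ℂ) ∂v' ∂v' := rfl
    rw [h2, h1]
    refine J_congr hM s (-2) _ _ fun x hx y hy => ?_
    by_cases hxy : x = y
    · subst hxy
      have h3 : ∀ (e : E n → Fin m → E n) (x : E n), kk (-2) e s x x = 0 := by
        intro e x
        unfold kk
        rw [sub_self, norm_zero, Real.zero_rpow hs0.ne', mul_zero]
      rw [h3, h3]
      simp
    · have h3 := hTMU m n T ρ U hT x (hMU hx) y (hMU hy) hxy (e x) (e y) (e' (T x)) (e' (T y))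
        (hM.orthonormal x hx) (hM.orthonormal y hy) (hM'.orthonormal _ ⟨x, hx, rfl⟩)
        (hM'.orthonormal _ ⟨y, hy, rfl⟩) (hor x hx) (hor y hy)
      have hx0 := hT.pos x (hMU hx)
      have hy0 := hT.pos y (hMU hy)
      have hd := hT.dist x (hMU hx) y (hMU hy)
      have hn0 : 0 < ‖x - y‖ := norm_pos_iff.mpr (sub_ne_zero.mpr hxy)
      have h4 : ρ x ^ m * ρ y ^ m * ‖T x - T y‖ ^ s =
          Real.exp ((s + 2 * m) * ((Lg x + Lg y) / 2)) * ‖x - y‖ ^ s := by
        have h5 : ‖T x - T y‖ ^ s = (ρ x * ρ y * ‖x - y‖ ^ 2) ^ (s / 2) := by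
          rw [← hd, ← Real.rpow_natCast ‖T x - T y‖ 2, ← Real.rpow_mul (norm_nonneg _)]
          congr 1
          push_cast
          ring
        have h6 : (‖x - y‖ ^ 2) ^ (s / 2) = ‖x - y‖ ^ s := by
          rw [← Real.rpow_natCast ‖x - y‖ 2, ← Real.rpow_mul (norm_nonneg _)]
          congr 1
          push_cast
          ring
        rw [h5, Real.mul_rpow (mul_pos hx0 hy0).le (by positivity), h6, ← mul_assoc]
        congr 1
        have h7 : ρ x ^ m * ρ y ^ m = Real.exp (m * (Lg x + Lg y)) := by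
          rw [mul_add, Real.exp_add, Real.exp_nat_mul, Real.exp_nat_mul, Real.exp_log hx0,
            Real.exp_log hy0]
        have h8 : (ρ x * ρ y) ^ (s / 2) = Real.exp (s / 2 * (Lg x + Lg y)) := by
          rw [Real.rpow_def_of_pos (mul_pos hx0 hy0), Real.log_mul hx0.ne' hy0.ne', mul_comm]
        rw [h7, h8, ← Real.exp_add]
        congr 1
        ring
      have h9 : Complex.exp (σ * Sg x y) =
          ((Real.exp ((s + 2 * m) * ((Lg x + Lg y) / 2)) : ℝ) : ℂ) := by
        rw [hσr, Complex.ofReal_exp, Complex.ofReal_mul]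
      rw [h9]
      unfold kk
      rw [h3]
      have h10 := congrArg (fun t : ℝ => ((t * kdet (-2) (e x) (e y) (x - y) : ℝ) : ℂ)) h4
      push_cast at h10 ⊢
      linear_combination h10
  -- the expansion
  have e1 := J_prod hC hM hs0 (-2) (fun x y => Complex.exp (σ * Sg x y))
    (Complex.continuous_exp.comp_continuousOn (continuousOn_const.mul hSc))
  have e2 := J_prod hC hM hs0 (-2) (fun _ _ => 1) continuousOn_const
  have e3 := J_prod hC hM hs0 (-2) (fun x _ => (Lg x : ℂ))
    (Complex.continuous_ofReal.comp_continuousOn hL1)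
  have e4 := J_prod hC hM hs0 (-2) (fun _ y => (Lg y : ℂ))
    (Complex.continuous_ofReal.comp_continuousOn hL2)
  have e5 := J_prod hC hM hs0 (-2) (fun x y => (s : ℂ) * Sg x y ^ 2 * φ (σ * Sg x y))
    ((continuousOn_const.mul (hSc.pow 2)).mul hφc)
  have hsymm : J (-2) e v (fun _ y => (Lg y : ℂ)) s = J (-2) e v (fun x _ => (Lg x : ℂ)) s := by
    rw [e3.2, e4.2, ← integral_prod_swap]
    refine integral_congr_ae (Eventually.of_forall fun z => ?_)
    simp only [Prod.fst_swap, Prod.snd_swap]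
    rw [kk_symm]
  have hsC : (s : ℂ) ≠ 0 := by exact_mod_cast hs0.ne'
  have hexpand : J (-2) e v (fun x y => Complex.exp (σ * Sg x y)) s =
      J (-2) e v (fun _ _ => 1) s + σ / 2 * (J (-2) e v (fun x _ => (Lg x : ℂ)) s +
        J (-2) e v (fun _ y => (Lg y : ℂ)) s) + σ ^ 2 / s *
        J (-2) e v (fun x y => (s : ℂ) * Sg x y ^ 2 * φ (σ * Sg x y)) s := by
    rw [e1.2, e2.2, e3.2, e4.2, e5.2, ← integral_add e3.1 e4.1, ← integral_const_mul,
      ← integral_const_mul]
    have i1 : Integrable (fun z : E n × E n => σ / 2 * ((Lg z.1 : ℂ) * (kk (-2) e s z.1 z.2 : ℂ) +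
        (Lg z.2 : ℂ) * (kk (-2) e s z.1 z.2 : ℂ))) (v.prod v) := (e3.1.add e4.1).const_mul (σ / 2)
    have i2 := e5.1.const_mul (σ ^ 2 / s)
    have i3 : Integrable (fun z : E n × E n => (1 : ℂ) * (kk (-2) e s z.1 z.2 : ℂ) +
        σ / 2 * ((Lg z.1 : ℂ) * (kk (-2) e s z.1 z.2 : ℂ) +
        (Lg z.2 : ℂ) * (kk (-2) e s z.1 z.2 : ℂ))) (v.prod v) := e2.1.add i1
    rw [← integral_add e2.1 i1, ← integral_add i3 i2]
    refine integral_congr_ae (Eventually.of_forall fun z => ?_)
    dsimp only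
    rw [hexp]
    have h1 : Sg z.1 z.2 = ((Lg z.1 : ℂ) + (Lg z.2 : ℂ)) / 2 := by
      simp only [Sg]
      push_cast
      ring
    rw [h1]
    field_simp
  have a1 := J_exact hE hM' hs (fun _ => 1)
  have a2 := J_exact hE hM hs (fun _ => 1)
  have a3 := J_exact hE hM hs (fun x => (Lg x : ℂ))
  rw [hsymm] at hexpand
  rw [← hstep2, a1, a2, a3] at hexpand
  have hfac : ((1 + 2 * m / s : ℝ) : ℂ) = σ / s := by
    rw [hσ]
    push_cast
    field_simp
  have hσ0 : σ ≠ 0 := by
    rw [hσr]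
    exact_mod_cast hsm.ne'
  rw [hfac] at hexpand
  have hmul : σ / s * J 0 e' v' (fun _ _ => 1) s = σ / s * (J 0 e v (fun _ _ => 1) s +
      σ * (J 0 e v (fun x _ => (Lg x : ℂ)) s +
        J (-2) e v (fun x y => (s : ℂ) * Sg x y ^ 2 * φ (σ * Sg x y)) s)) := by
    rw [hexpand]
    field_simp
    ring
  exact mul_left_cancel₀ (div_ne_zero hσ0 hsC) hmul

end Pool.Agent.K3h85.MI
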